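import Mathlib

/-!
# Lemma K (a fractional covering lemma)

Items `i` with costs `x i ∈ (0,1)`, total cost at most `p`; nonnegative weights on sets of at most
`p` items such that, for every set `Z` of cost `< 1`, the sets meeting `Z` have total weight at most
`1`.  Then the sum of (weight) * (number of elements) is at most `2p`.
Paper proof: team-store `h64_LEMMAK_proof.md`.
-/

open Finset

namespace Pool.Agent.Helper64.LK

variable {ι κ : Type*} [DecidableEq ι]

/-- the multilinear function of the rounding lemma -/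
noncomputable def F (T : Finset κ) (v : κ → ℝ) (Y : κ → Finset ι) (z : ι → ℝ) : ℝ :=
  ∑ a ∈ T, v a * ∏ l ∈ Y a, (1 - z l)

/-- the product over `Y` with the factors at `i`, `j` split off -/
lemma prod_split (Y : Finset ι) (z : ι → ℝ) {i j : ι} (hij : i ≠ j) :
    ∏ l ∈ Y, (1 - z l) = (∏ l ∈ (Y.erase i).erase j, (1 - z l)) *
      ((if i ∈ Y then (1 - z i) else 1) * (if j ∈ Y then (1 - z j) else 1)) := by
  have h1 : ∏ l ∈ Y, (1 - z l) = (∏ l ∈ Y.erase i, (1 - z l)) * (if i ∈ Y then (1 - z i) else 1) := by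
    by_cases hi : i ∈ Y
    · rw [if_pos hi, Finset.prod_erase_mul _ _ hi]
    · rw [if_neg hi, Finset.erase_eq_of_notMem hi, mul_one]
  have h2 : ∏ l ∈ Y.erase i, (1 - z l) =
      (∏ l ∈ (Y.erase i).erase j, (1 - z l)) * (if j ∈ Y then (1 - z j) else 1) := by
    by_cases hj : j ∈ Y
    · rw [if_pos hj, Finset.prod_erase_mul _ _ (Finset.mem_erase.2 ⟨hij.symm, hj⟩)]
    · rw [if_neg hj, Finset.erase_eq_of_notMem (s := Y.erase i)
        (fun h => hj (Finset.mem_of_mem_erase h)), mul_one]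
  rw [h1, h2]; ring

/-- concavity along the direction `(1/x i, -1/x j)` -/
lemma F_concave (T : Finset κ) (v : κ → ℝ) (hv : ∀ a ∈ T, 0 ≤ v a) (Y : κ → Finset ι)
    (z z₁ z₂ : ι → ℝ) {i j : ι} (hij : i ≠ j) {xi xj α β : ℝ} (hxi : 0 < xi) (hxj : 0 < xj)
    (hα : 0 < α) (hβ : 0 < β)
    (hz : ∀ a ∈ T, ∀ l ∈ Y a, z l ≤ 1)
    (h1 : ∀ l, l ≠ i → l ≠ j → z₁ l = z l) (h2 : ∀ l, l ≠ i → l ≠ j → z₂ l = z l)
    (h1i : z₁ i = z i + α / xi) (h1j : z₁ j = z j - α / xj)
    (h2i : z₂ i = z i - β / xi) (h2j : z₂ j = z j + β / xj) :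
    β * F T v Y z₁ + α * F T v Y z₂ ≤ (α + β) * F T v Y z := by
  unfold F
  rw [Finset.mul_sum, Finset.mul_sum, Finset.mul_sum, ← Finset.sum_add_distrib]
  refine Finset.sum_le_sum fun a ha => ?_
  rw [prod_split (Y a) z hij, prod_split (Y a) z₁ hij, prod_split (Y a) z₂ hij]
  have hp1 : ∏ l ∈ ((Y a).erase i).erase j, (1 - z₁ l) = ∏ l ∈ ((Y a).erase i).erase j, (1 - z l) := by
    refine Finset.prod_congr rfl fun l hl => ?_
    rw [h1 l (Finset.ne_of_mem_erase (Finset.mem_of_mem_erase hl)) (Finset.ne_of_mem_erase hl)]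
  have hp2 : ∏ l ∈ ((Y a).erase i).erase j, (1 - z₂ l) = ∏ l ∈ ((Y a).erase i).erase j, (1 - z l) := by
    refine Finset.prod_congr rfl fun l hl => ?_
    rw [h2 l (Finset.ne_of_mem_erase (Finset.mem_of_mem_erase hl)) (Finset.ne_of_mem_erase hl)]
  rw [hp1, hp2]
  have hP : 0 ≤ ∏ l ∈ ((Y a).erase i).erase j, (1 - z l) := by
    refine Finset.prod_nonneg fun l hl => ?_
    have := hz a ha l (Finset.mem_of_mem_erase (Finset.mem_of_mem_erase hl))
    linarith
  set P := ∏ l ∈ ((Y a).erase i).erase j, (1 - z l) with hPdef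
  have hva := hv a ha
  have key : β * ((if i ∈ Y a then (1 - z₁ i) else 1) * (if j ∈ Y a then (1 - z₁ j) else 1)) +
      α * ((if i ∈ Y a then (1 - z₂ i) else 1) * (if j ∈ Y a then (1 - z₂ j) else 1)) ≤
      (α + β) * ((if i ∈ Y a then (1 - z i) else 1) * (if j ∈ Y a then (1 - z j) else 1)) := by
    rw [h1i, h1j, h2i, h2j]
    split_ifs with hi hj hj
    · have e : (α + β) * ((1 - z i) * (1 - z j)) -
          (β * ((1 - (z i + α / xi)) * (1 - (z j - α / xj))) +
            α * ((1 - (z i - β / xi)) * (1 - (z j + β / xj)))) =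
          α * β * (α + β) * (1 / xi) * (1 / xj) := by
        field_simp
        ring
      have : 0 ≤ α * β * (α + β) * (1 / xi) * (1 / xj) := by positivity
      linarith
    · apply le_of_eq; field_simp; ring
    · apply le_of_eq; field_simp; ring
    · apply le_of_eq; ring
  have := mul_le_mul_of_nonneg_left key (mul_nonneg hva hP)
  nlinarith [this]

/-- one step of the rounding -/
lemma step (T : Finset κ) (v : κ → ℝ) (hv : ∀ a ∈ T, 0 ≤ v a) (Y : κ → Finset ι)
    (z : ι → ℝ) {i j : ι} (hij : i ≠ j) (x : ι → ℝ) (hxi : 0 < x i) (hxj : 0 < x j)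
    (hz : ∀ a ∈ T, ∀ l ∈ Y a, z l ≤ 1)
    (hi0 : 0 < z i) (hi1 : z i < 1) (hj0 : 0 < z j) (hj1 : z j < 1) :
    ∃ z' : ι → ℝ, (∀ l, l ≠ i → l ≠ j → z' l = z l) ∧ 0 ≤ z' i ∧ z' i ≤ 1 ∧ 0 ≤ z' j ∧ z' j ≤ 1 ∧
      ((z' i = 0 ∨ z' i = 1) ∨ (z' j = 0 ∨ z' j = 1)) ∧
      x i * z' i + x j * z' j = x i * z i + x j * z j ∧ F T v Y z' ≤ F T v Y z := by
  set α := min (x i * (1 - z i)) (x j * z j) with hαd
  set β := min (x i * z i) (x j * (1 - z j)) with hβd
  have hα : 0 < α := lt_min (mul_pos hxi (by linarith)) (mul_pos hxj hj0)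
  have hβ : 0 < β := lt_min (mul_pos hxi hi0) (mul_pos hxj (by linarith))
  set z₁ : ι → ℝ := Function.update (Function.update z i (z i + α / x i)) j (z j - α / x j) with hz1
  set z₂ : ι → ℝ := Function.update (Function.update z i (z i - β / x i)) j (z j + β / x j) with hz2
  have h1 : ∀ l, l ≠ i → l ≠ j → z₁ l = z l := fun l hli hlj => by
    rw [hz1, Function.update_of_ne hlj, Function.update_of_ne hli]
  have h2 : ∀ l, l ≠ i → l ≠ j → z₂ l = z l := fun l hli hlj => by
    rw [hz2, Function.update_of_ne hlj, Function.update_of_ne hli]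
  have h1i : z₁ i = z i + α / x i := by rw [hz1, Function.update_of_ne hij, Function.update_self]
  have h2i : z₂ i = z i - β / x i := by rw [hz2, Function.update_of_ne hij, Function.update_self]
  have h1j : z₁ j = z j - α / x j := by rw [hz1, Function.update_self]
  have h2j : z₂ j = z j + β / x j := by rw [hz2, Function.update_self]
  have hc := F_concave T v hv Y z z₁ z₂ hij hxi hxj hα hβ hz h1 h2 h1i h1j h2i h2j
  have ha1 : α / x i ≤ 1 - z i := by
    rw [div_le_iff₀ hxi, mul_comm]; exact min_le_left _ _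
  have ha2 : α / x j ≤ z j := by
    rw [div_le_iff₀ hxj, mul_comm]; exact min_le_right _ _
  have hb1 : β / x i ≤ z i := by
    rw [div_le_iff₀ hxi, mul_comm]; exact min_le_left _ _
  have hb2 : β / x j ≤ 1 - z j := by
    rw [div_le_iff₀ hxj, mul_comm]; exact min_le_right _ _
  have pa1 : 0 < α / x i := div_pos hα hxi
  have pa2 : 0 < α / x j := div_pos hα hxj
  have pb1 : 0 < β / x i := div_pos hβ hxi
  have pb2 : 0 < β / x j := div_pos hβ hxj
  by_cases hF : F T v Y z₁ ≤ F T v Y z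
  · refine ⟨z₁, h1, ?_, ?_, ?_, ?_, ?_, ?_, hF⟩
    · rw [h1i]; linarith
    · rw [h1i]; linarith
    · rw [h1j]; linarith
    · rw [h1j]; linarith
    · rcases min_choice (x i * (1 - z i)) (x j * z j) with h | h
      · left; right
        rw [h1i, hαd, h]; field_simp; ring
      · right; left
        rw [h1j, hαd, h]; field_simp; ring
    · rw [h1i, h1j]; field_simp; ring
  · push Not at hF
    have hF2 : F T v Y z₂ ≤ F T v Y z := by
      by_contra hcon
      push Not at hcon
      nlinarith [mul_lt_mul_of_pos_left hF hβ, mul_lt_mul_of_pos_left hcon hα]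
    refine ⟨z₂, h2, ?_, ?_, ?_, ?_, ?_, ?_, hF2⟩
    · rw [h2i]; linarith
    · rw [h2i]; linarith
    · rw [h2j]; linarith
    · rw [h2j]; linarith
    · rcases min_choice (x i * z i) (x j * (1 - z j)) with h | h
      · left; left
        rw [h2i, hβd, h]; field_simp; ring
      · right; right
        rw [h2j, hβd, h]; field_simp; ring
    · rw [h2i, h2j]; field_simp; ring

/-- the last step of the rounding: at most one fractional coordinate -/
lemma last_step (T : Finset κ) (v : κ → ℝ) (hv : ∀ a ∈ T, 0 ≤ v a) (Y : κ → Finset ι)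
    (S : Finset ι) (hY : ∀ a ∈ T, Y a ⊆ S) (x : ι → ℝ) {t : ℝ} (ht : 0 < t)
    (hx : ∀ i ∈ S, 0 < x i) (hxt : ∀ i ∈ S, x i ≤ t)
    (z : ι → ℝ) (hz0 : ∀ i ∈ S, 0 ≤ z i) (hz1 : ∀ i ∈ S, z i ≤ 1)
    (hc : (S.filter (fun i => 0 < z i ∧ z i < 1)).card ≤ 1) :
    ∃ A ⊆ S, ∑ i ∈ A, x i < ∑ i ∈ S, x i * z i + t ∧
      ∑ a ∈ T.filter (fun a => Disjoint (Y a) A), v a ≤ F T v Y z := by
  classical
  refine ⟨S.filter (fun i => 0 < z i), Finset.filter_subset _ _, ?_, ?_⟩
  · have e1 : ∑ i ∈ S.filter (fun i => 0 < z i), x i =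
        ∑ i ∈ S, x i * z i + ∑ i ∈ S.filter (fun i => 0 < z i ∧ z i < 1), x i * (1 - z i) := by
      rw [Finset.sum_filter, Finset.sum_filter, ← Finset.sum_add_distrib]
      refine Finset.sum_congr rfl fun i hi => ?_
      rcases lt_or_eq_of_le (hz0 i hi) with h | h
      · rcases lt_or_eq_of_le (hz1 i hi) with h' | h'
        · rw [if_pos h, if_pos ⟨h, h'⟩]; ring
        · rw [if_pos h, if_neg (fun hh => absurd hh.2 (by linarith)), h']; ring
      · rw [if_neg (by linarith), if_neg (fun hh => absurd hh.1 (by linarith)), ← h]; ring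
    rw [e1]
    have e2 : ∑ i ∈ S.filter (fun i => 0 < z i ∧ z i < 1), x i * (1 - z i) < t := by
      rcases Nat.le_one_iff_eq_zero_or_eq_one.1 hc with h | h
      · rw [Finset.card_eq_zero.1 h, Finset.sum_empty]; exact ht
      · obtain ⟨f, hf⟩ := Finset.card_eq_one.1 h
        rw [hf, Finset.sum_singleton]
        have hfm : f ∈ S.filter (fun i => 0 < z i ∧ z i < 1) := by rw [hf]; exact Finset.mem_singleton_self f
        obtain ⟨hfS, hf0, hf1⟩ := Finset.mem_filter.1 hfm
        have := hx f hfS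
        have := hxt f hfS
        nlinarith
    linarith
  · unfold F
    rw [Finset.sum_filter]
    refine Finset.sum_le_sum fun a ha => ?_
    have hpn : 0 ≤ ∏ l ∈ Y a, (1 - z l) :=
      Finset.prod_nonneg fun l hl => by have := hz1 l (hY a ha hl); linarith
    split_ifs with hd
    · have : ∏ l ∈ Y a, (1 - z l) = 1 := by
        refine Finset.prod_eq_one fun l hl => ?_
        have hlS := hY a ha hl
        have : ¬ 0 < z l := fun h => (Finset.disjoint_left.1 hd hl) (Finset.mem_filter.2 ⟨hlS, h⟩)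
        have := hz0 l hlS
        linarith
      rw [this, mul_one]
    · exact mul_nonneg (hv a ha) hpn

/-- ROUNDING LEMMA -/
lemma rounding (T : Finset κ) (v : κ → ℝ) (hv : ∀ a ∈ T, 0 ≤ v a) (Y : κ → Finset ι)
    (S : Finset ι) (hY : ∀ a ∈ T, Y a ⊆ S) (x : ι → ℝ) {t : ℝ} (ht : 0 < t)
    (hx : ∀ i ∈ S, 0 < x i) (hxt : ∀ i ∈ S, x i ≤ t) (n : ℕ) :
    ∀ z : ι → ℝ, (∀ i ∈ S, 0 ≤ z i) → (∀ i ∈ S, z i ≤ 1) →
      (S.filter (fun i => 0 < z i ∧ z i < 1)).card ≤ n + 1 →
      ∃ A ⊆ S, ∑ i ∈ A, x i < ∑ i ∈ S, x i * z i + t ∧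
        ∑ a ∈ T.filter (fun a => Disjoint (Y a) A), v a ≤ F T v Y z := by
  classical
  induction n with
  | zero =>
    intro z hz0 hz1 hc
    exact last_step T v hv Y S hY x ht hx hxt z hz0 hz1 hc
  | succ n ih =>
    intro z hz0 hz1 hc
    by_cases hc2 : (S.filter (fun i => 0 < z i ∧ z i < 1)).card ≤ 1
    · exact last_step T v hv Y S hY x ht hx hxt z hz0 hz1 hc2
    push Not at hc2
    obtain ⟨i, hi, j, hj, hij⟩ := Finset.one_lt_card.1 hc2
    obtain ⟨hiS, hi0, hi1⟩ := Finset.mem_filter.1 hi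
    obtain ⟨hjS, hj0, hj1⟩ := Finset.mem_filter.1 hj
    obtain ⟨z', hz', h1, h2, h3, h4, h5, h6, h7⟩ := step T v hv Y z hij x (hx i hiS) (hx j hjS)
      (fun a ha l hl => hz1 l (hY a ha hl)) hi0 hi1 hj0 hj1
    have hz0' : ∀ l ∈ S, 0 ≤ z' l := by
      intro l hl
      by_cases hli : l = i
      · rw [hli]; exact h1
      by_cases hlj : l = j
      · rw [hlj]; exact h3
      rw [hz' l hli hlj]; exact hz0 l hl
    have hz1' : ∀ l ∈ S, z' l ≤ 1 := by
      intro l hl
      by_cases hli : l = i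
      · rw [hli]; exact h2
      by_cases hlj : l = j
      · rw [hlj]; exact h4
      rw [hz' l hli hlj]; exact hz1 l hl
    have hsub : S.filter (fun i => 0 < z' i ∧ z' i < 1) ⊂ S.filter (fun i => 0 < z i ∧ z i < 1) := by
      rw [Finset.ssubset_iff_of_subset]
      · rcases h5 with h | h
        · refine ⟨i, hi, fun hh => ?_⟩
          obtain ⟨-, hh1, hh2⟩ := Finset.mem_filter.1 hh
          rcases h with h | h <;> linarith
        · refine ⟨j, hj, fun hh => ?_⟩
          obtain ⟨-, hh1, hh2⟩ := Finset.mem_filter.1 hh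
          rcases h with h | h <;> linarith
      · intro l hl
        obtain ⟨hlS, hl0, hl1⟩ := Finset.mem_filter.1 hl
        by_cases hli : l = i
        · rw [hli]; exact hi
        by_cases hlj : l = j
        · rw [hlj]; exact hj
        rw [hz' l hli hlj] at hl0 hl1
        exact Finset.mem_filter.2 ⟨hlS, hl0, hl1⟩
    have hcard := Finset.card_lt_card hsub
    obtain ⟨A, hA, hA1, hA2⟩ := ih z' hz0' hz1' (by omega)
    refine ⟨A, hA, ?_, hA2.trans h7⟩
    have hsum : ∑ l ∈ S, x l * z' l = ∑ l ∈ S, x l * z l := by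
      have hd : ∑ l ∈ S, (x l * z' l - x l * z l) = 0 := by
        rw [← Finset.add_sum_erase S _ hiS, ← Finset.add_sum_erase (S.erase i) _
          (Finset.mem_erase.2 ⟨hij.symm, hjS⟩)]
        have : ∑ l ∈ (S.erase i).erase j, (x l * z' l - x l * z l) = 0 := by
          refine Finset.sum_eq_zero fun l hl => ?_
          rw [hz' l (Finset.ne_of_mem_erase (Finset.mem_of_mem_erase hl)) (Finset.ne_of_mem_erase hl)]
          ring
        rw [this]; linarith
      rw [Finset.sum_sub_distrib] at hd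
      linarith
    rw [← hsum]; exact hA1

/-- the `n` largest items -/
lemma exists_largest [Fintype ι] (x : ι → ℝ) (n : ℕ) (hn : n ≤ Fintype.card ι) :
    ∃ B : Finset ι, B.card = n ∧ ∀ j ∈ B, ∀ i ∉ B, x i ≤ x j := by
  classical
  induction n with
  | zero => exact ⟨∅, rfl, fun j hj => absurd hj (Finset.notMem_empty j)⟩
  | succ n ih =>
    obtain ⟨B, hB, hB2⟩ := ih (by omega)
    have hne : (Bᶜ : Finset ι).Nonempty := by
      rw [← Finset.card_pos, Finset.card_compl]; omega
    obtain ⟨m, hm, hmax⟩ := Finset.exists_max_image (Bᶜ) x hne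
    rw [Finset.mem_compl] at hm
    refine ⟨insert m B, by rw [Finset.card_insert_of_notMem hm, hB], ?_⟩
    intro j hj i hi
    rw [Finset.mem_insert, not_or] at hi
    rcases Finset.mem_insert.1 hj with h | h
    · rw [h]; exact hmax i (Finset.mem_compl.2 hi.2)
    · exact hB2 j h i hi.2

/-- `1 - (1-u)^r ≥ ru/(1+ru)` in the form needed: with `u = min 1 (d/y)`, `0 ≤ d ≤ D`, `0 < y`. -/
lemma hit_bound {d D y : ℝ} (hd : 0 ≤ d) (hdD : d ≤ D) (hy : 0 < y) (r : ℕ) :
    r * d / (y + r * D) ≤ 1 - (1 - min 1 (d / y)) ^ r := by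
  rcases Nat.eq_zero_or_pos r with h | h
  · subst h; simp
  have hD : 0 ≤ D := hd.trans hdD
  have hr : (0 : ℝ) < r := by exact_mod_cast h
  have hden : 0 < y + r * D := by positivity
  rcases le_total (d / y) 1 with hu | hu
  · rw [min_eq_right hu]
    set u := d / y with hudef
    have hu0 : 0 ≤ u := div_nonneg hd hy.le
    have hdy : d = u * y := by rw [hudef]; field_simp
    have hb : 1 + (r : ℝ) * u ≤ (1 + u) ^ r := one_add_mul_le_pow (by linarith) r
    have hp : 0 ≤ (1 - u) ^ r := pow_nonneg (by linarith) r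
    have h1 : (1 - u) ^ r * (1 + r * u) ≤ 1 := by
      calc (1 - u) ^ r * (1 + r * u) ≤ (1 - u) ^ r * (1 + u) ^ r := mul_le_mul_of_nonneg_left hb hp
        _ = (1 - u ^ 2) ^ r := by rw [← mul_pow]; ring
        _ ≤ 1 := pow_le_one₀ (by nlinarith) (by nlinarith)
    rw [div_le_iff₀ hden]
    have h2 : r * d ≤ (1 - (1 - u) ^ r) * (y + r * d) := by
      rw [hdy]; nlinarith [mul_le_mul_of_nonneg_left h1 hy.le]
    have h3 : 0 ≤ 1 - (1 - u) ^ r := by
      have := pow_le_one₀ (n := r) (show 0 ≤ 1 - u by linarith) (show 1 - u ≤ 1 by linarith)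
      linarith
    have h4 : (1 - (1 - u) ^ r) * (y + r * d) ≤ (1 - (1 - u) ^ r) * (y + r * D) :=
      mul_le_mul_of_nonneg_left (by nlinarith) h3
    linarith
  · rw [min_eq_left hu, sub_self, zero_pow h.ne', sub_zero, div_le_one hden]
    nlinarith

/-- one item `j` of the big ones: the covering set `{j} ∪ A` -/
lemma one_item [Fintype ι] (x : ι → ℝ) (hx0 : ∀ i, 0 < x i) (hx1 : ∀ i, x i < 1)
    (T : Finset κ) (w : κ → ℝ) (hw : ∀ a ∈ T, 0 ≤ w a) (X : κ → Finset ι)
    (h : ∀ Z : Finset ι, ∑ i ∈ Z, x i < 1 → ∑ a ∈ T.filter (fun a => ¬ Disjoint (X a) Z), w a ≤ 1)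
    (S : Finset ι) {t : ℝ} (ht : 0 < t) (hxt : ∀ i ∈ S, x i ≤ t) (hy : 0 < ∑ i ∈ S, x i)
    (j : ι) (hj : j ∉ S) :
    ∑ a ∈ T, w a * (if j ∈ X a then (1 : ℝ) else
      1 - (1 - min 1 (max 0 (1 - t - x j) / ∑ i ∈ S, x i)) ^ (X a ∩ S).card) ≤ 1 := by
  classical
  set y := ∑ i ∈ S, x i with hydef
  set d := max 0 (1 - t - x j) with hd
  set u := min 1 (d / y) with hu
  have hd0 : 0 ≤ d := le_max_left _ _
  have hu0 : 0 ≤ u := le_min zero_le_one (div_nonneg hd0 hy.le)
  have hu1 : u ≤ 1 := min_le_left _ _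
  -- the set A
  have key : ∃ A ⊆ S, x j + ∑ i ∈ A, x i < 1 ∧
      ∑ a ∈ (T.filter (fun a => j ∉ X a)).filter (fun a => Disjoint (X a ∩ S) A), w a ≤
        ∑ a ∈ T.filter (fun a => j ∉ X a), w a * (1 - u) ^ (X a ∩ S).card := by
    by_cases hpos : 0 < 1 - t - x j
    · obtain ⟨A, hA, hA1, hA2⟩ := rounding (T.filter (fun a => j ∉ X a)) w
        (fun a ha => hw a (Finset.mem_filter.1 ha).1) (fun a => X a ∩ S) S
        (fun a _ => Finset.inter_subset_right) x ht (fun i _ => hx0 i) hxt S.card (fun _ => u)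
        (fun _ _ => hu0) (fun _ _ => hu1)
        ((Finset.card_filter_le _ _).trans (Nat.le_succ _))
      refine ⟨A, hA, ?_, ?_⟩
      · have h1 : ∑ i ∈ S, x i * u ≤ d := by
          rw [← Finset.sum_mul, ← hydef]
          have : u ≤ d / y := min_le_right _ _
          calc y * u ≤ y * (d / y) := mul_le_mul_of_nonneg_left this hy.le
            _ = d := by field_simp
        have h2 : d = 1 - t - x j := max_eq_right hpos.le
        linarith
      · refine hA2.trans (le_of_eq ?_)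
        unfold F
        refine Finset.sum_congr rfl fun a _ => ?_
        rw [Finset.prod_const]
    · refine ⟨∅, Finset.empty_subset _, by simpa using hx1 j, ?_⟩
      have h0 : d = 0 := max_eq_left (not_lt.1 hpos)
      have hu' : u = 0 := by rw [hu, h0, zero_div]; exact min_eq_right zero_le_one
      rw [hu']
      refine (Finset.sum_le_sum_of_subset_of_nonneg (Finset.filter_subset _ _) ?_).trans (le_of_eq ?_)
      · intro a ha _
        exact hw a (Finset.mem_filter.1 ha).1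
      · refine Finset.sum_congr rfl fun a _ => ?_
        simp
  obtain ⟨A, hAS, hA1, hA2⟩ := key
  have hjA : j ∉ A := fun hh => hj (hAS hh)
  have hZ := h (insert j A) (by rw [Finset.sum_insert hjA]; exact hA1)
  refine le_trans ?_ hZ
  -- split the sum
  have e1 : ∑ a ∈ T, w a * (if j ∈ X a then (1 : ℝ) else 1 - (1 - u) ^ (X a ∩ S).card) =
      ∑ a ∈ T.filter (fun a => j ∈ X a), w a +
      (∑ a ∈ T.filter (fun a => j ∉ X a), w a -
        ∑ a ∈ T.filter (fun a => j ∉ X a), w a * (1 - u) ^ (X a ∩ S).card) := by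
    rw [← Finset.sum_sub_distrib, Finset.sum_filter, Finset.sum_filter, ← Finset.sum_add_distrib]
    refine Finset.sum_congr rfl fun a _ => ?_
    by_cases hja : j ∈ X a
    · simp [hja]
    · simp [hja]; ring
  rw [e1]
  have e2 : ∑ a ∈ T.filter (fun a => ¬ Disjoint (X a) (insert j A)), w a =
      ∑ a ∈ T.filter (fun a => j ∈ X a), w a +
      (∑ a ∈ T.filter (fun a => j ∉ X a), w a -
        ∑ a ∈ (T.filter (fun a => j ∉ X a)).filter (fun a => Disjoint (X a ∩ S) A), w a) := by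
    rw [Finset.filter_filter, Finset.sum_filter, Finset.sum_filter, Finset.sum_filter,
      Finset.sum_filter, ← Finset.sum_sub_distrib, ← Finset.sum_add_distrib]
    refine Finset.sum_congr rfl fun a _ => ?_
    by_cases hja : j ∈ X a
    · have : ¬ Disjoint (X a) (insert j A) :=
        fun hh => Finset.disjoint_left.1 hh hja (Finset.mem_insert_self _ _)
      simp [hja, this]
    · have hiff : Disjoint (X a) (insert j A) ↔ Disjoint (X a ∩ S) A := by
        rw [Finset.disjoint_insert_right]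
        constructor
        · intro hh
          exact hh.2.mono_left Finset.inter_subset_left
        · intro hh
          refine ⟨hja, ?_⟩
          rw [Finset.disjoint_left] at hh ⊢
          intro l hl hlA
          exact hh (Finset.mem_inter.2 ⟨hl, hAS hlA⟩) hlA
      by_cases hdj : Disjoint (X a ∩ S) A
      · simp [hja, hiff, hdj]
      · simp [hja, hiff, hdj]
  rw [e2]
  linarith

/-- **Lemma K**, real costs, weights on a finite family of sets. -/
theorem lemmaK_real [Fintype ι] (p : ℕ) (x : ι → ℝ) (hx0 : ∀ i, 0 < x i) (hx1 : ∀ i, x i < 1)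
    (hK : ∑ i, x i ≤ p) (T : Finset κ) (w : κ → ℝ) (hw : ∀ a ∈ T, 0 ≤ w a) (X : κ → Finset ι)
    (hp : ∀ a ∈ T, w a ≠ 0 → (X a).card ≤ p)
    (h : ∀ Z : Finset ι, ∑ i ∈ Z, x i < 1 →
      ∑ a ∈ T.filter (fun a => ¬ Disjoint (X a) Z), w a ≤ 1) :
    ∑ a ∈ T, w a * ((X a).card : ℝ) ≤ 2 * p := by
  classical
  rcases le_or_gt (Fintype.card ι) (2 * p) with hN | hN
  · -- few items
    have e1 : ∑ a ∈ T, w a * ((X a).card : ℝ) =
        ∑ i : ι, ∑ a ∈ T.filter (fun a => ¬ Disjoint (X a) {i}), w a := by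
      have : ∀ a ∈ T, w a * ((X a).card : ℝ) = ∑ i : ι, if i ∈ X a then w a else 0 := by
        intro a _
        rw [← Finset.sum_filter, Finset.sum_const, nsmul_eq_mul, mul_comm]
        congr 2
        rw [Finset.filter_mem_eq_inter, Finset.univ_inter]
      rw [Finset.sum_congr rfl this, Finset.sum_comm]
      refine Finset.sum_congr rfl fun i _ => ?_
      rw [Finset.sum_filter]
      refine Finset.sum_congr rfl fun a _ => ?_
      simp
    rw [e1]
    calc ∑ i : ι, ∑ a ∈ T.filter (fun a => ¬ Disjoint (X a) {i}), w a ≤ ∑ i : ι, (1 : ℝ) :=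
          Finset.sum_le_sum fun i _ => h {i} (by rw [Finset.sum_singleton]; exact hx1 i)
      _ = (Fintype.card ι : ℝ) := by simp
      _ ≤ 2 * p := by exact_mod_cast hN
  obtain ⟨B, hB, hBx⟩ := exists_largest x (2 * p) hN.le
  set S : Finset ι := Bᶜ with hS
  have hSne : S.Nonempty := by
    rw [hS, ← Finset.card_pos, Finset.card_compl]; omega
  obtain ⟨i0, hi0, hmax⟩ := Finset.exists_max_image S x hSne
  set t := x i0 with ht
  have ht0 : 0 < t := hx0 i0
  have hy : 0 < ∑ i ∈ S, x i := Finset.sum_pos (fun i _ => hx0 i) hSne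
  have hi0B : i0 ∉ B := by simpa [hS] using hi0
  have hBt : ∀ j ∈ B, t ≤ x j := fun j hj => hBx j hj i0 hi0B
  have hsplit : ∑ i ∈ B, x i + ∑ i ∈ S, x i = ∑ i, x i := by
    rw [hS, Finset.sum_add_sum_compl]
  have hty : t ≤ ∑ i ∈ S, x i := Finset.single_le_sum (f := x) (fun i _ => (hx0 i).le) hi0
  have hBsum : (2 * p : ℝ) * t ≤ ∑ i ∈ B, x i := by
    have := Finset.card_nsmul_le_sum B x t hBt
    rw [hB, nsmul_eq_mul] at this
    push_cast at this
    exact this
  have hp0 : (0 : ℝ) ≤ p := Nat.cast_nonneg p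
  have hD : 0 < 1 - 2 * t := by nlinarith
  set y := ∑ i ∈ S, x i with hydef
  -- sum over the big items
  have hsum : ∑ j ∈ B, ∑ a ∈ T, w a * (if j ∈ X a then (1 : ℝ) else
      1 - (1 - min 1 (max 0 (1 - t - x j) / y)) ^ (X a ∩ S).card) ≤ 2 * p := by
    calc _ ≤ ∑ j ∈ B, (1 : ℝ) := Finset.sum_le_sum fun j hj =>
          one_item x hx0 hx1 T w hw X h S ht0 hmax hy j (by rw [hS, Finset.mem_compl]; exact fun hh => hh hj)
      _ = 2 * p := by rw [Finset.sum_const, hB, nsmul_eq_mul]; push_cast; ring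
  refine le_trans ?_ hsum
  rw [Finset.sum_comm]
  refine Finset.sum_le_sum fun a ha => ?_
  rw [← Finset.mul_sum]
  by_cases hwa : w a = 0
  · rw [hwa, zero_mul, zero_mul]
  refine mul_le_mul_of_nonneg_left ?_ (hw a ha)
  have hcard := hp a ha hwa
  set m := (X a ∩ B).card with hm
  set r := (X a ∩ S).card with hr
  have hmr : m + r = (X a).card := by
    rw [hm, hr, hS, ← Finset.card_union_of_disjoint, ← Finset.inter_union_distrib_left,
      Finset.union_compl, Finset.inter_univ]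
    exact (disjoint_compl_right.mono Finset.inter_subset_right Finset.inter_subset_right)
  have hsp : ∑ j ∈ B, (if j ∈ X a then (1 : ℝ) else
      1 - (1 - min 1 (max 0 (1 - t - x j) / y)) ^ r) =
      m + ∑ j ∈ B \ X a, (1 - (1 - min 1 (max 0 (1 - t - x j) / y)) ^ r) := by
    rw [← Finset.sum_inter_add_sum_sdiff B (X a)]
    congr 1
    · rw [hm, Finset.inter_comm, Finset.sum_congr rfl (g := fun _ => (1 : ℝ))]
      · simp
      · intro j hj
        rw [if_pos (Finset.mem_inter.1 hj).1]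
    · refine Finset.sum_congr rfl fun j hj => ?_
      rw [if_neg (Finset.mem_sdiff.1 hj).2]
  rw [hsp, ← hmr]
  push_cast
  have hden : 0 < y + r * (1 - 2 * t) := by positivity
  have h1 : ∑ j ∈ B \ X a, (r : ℝ) * max 0 (1 - t - x j) / (y + r * (1 - 2 * t)) ≤
      ∑ j ∈ B \ X a, (1 - (1 - min 1 (max 0 (1 - t - x j) / y)) ^ r) := by
    refine Finset.sum_le_sum fun j hj => ?_
    have hjt := hBt j (Finset.mem_sdiff.1 hj).1
    exact hit_bound (le_max_left _ _) (max_le hD.le (by linarith)) hy r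
  have h2 : y + r * (1 - 2 * t) ≤ ∑ j ∈ B \ X a, max 0 (1 - t - x j) := by
    have h3 : ∑ j ∈ B \ X a, (1 - t - x j) ≤ ∑ j ∈ B \ X a, max 0 (1 - t - x j) :=
      Finset.sum_le_sum fun j _ => le_max_right _ _
    refine le_trans ?_ h3
    rw [Finset.sum_sub_distrib, Finset.sum_const, nsmul_eq_mul]
    have hc : ((B \ X a).card : ℝ) = 2 * p - m := by
      have := Finset.card_sdiff_add_card_inter B (X a)
      rw [hB, Finset.inter_comm] at this
      have h' : ((B \ X a).card : ℝ) + m = ((2 * p : ℕ) : ℝ) := by rw [hm]; exact_mod_cast this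
      push_cast at h'
      linarith
    have hxs : ∑ j ∈ B ∩ X a, x j + ∑ j ∈ B \ X a, x j = ∑ j ∈ B, x j :=
      Finset.sum_inter_add_sum_sdiff B (X a) x
    have hxm : (m : ℝ) * t ≤ ∑ j ∈ B ∩ X a, x j := by
      have := Finset.card_nsmul_le_sum (B ∩ X a) x t (fun j hj => hBt j (Finset.mem_inter.1 hj).1)
      rw [nsmul_eq_mul, Finset.inter_comm] at this
      rw [hm, Finset.inter_comm B (X a)]
      exact this
    have hrp : (r : ℝ) ≤ p - m := by
      have : ((m + r : ℕ) : ℝ) ≤ p := by rw [hmr]; exact_mod_cast hcard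
      push_cast at this
      linarith
    rw [hc]
    nlinarith [mul_le_mul_of_nonneg_right hrp hD.le]
  have h4 : (r : ℝ) ≤ ∑ j ∈ B \ X a, (r : ℝ) * max 0 (1 - t - x j) / (y + r * (1 - 2 * t)) := by
    rw [← Finset.sum_div, ← Finset.mul_sum, le_div_iff₀ hden]
    exact mul_le_mul_of_nonneg_left h2 (Nat.cast_nonneg r)
  linarith

/-- **Lemma K**, integer costs (`s + 1` is the dimension of the geometric application). -/
theorem lemmaK [Fintype ι] (p s : ℕ) (k : ι → ℕ) (hk : ∀ i, 1 ≤ k i) (hks : ∀ i, k i ≤ s)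
    (hK : ∑ i, k i ≤ p * (s + 1)) (T : Finset κ) (w : κ → ℝ) (hw : ∀ a ∈ T, 0 ≤ w a)
    (X : κ → Finset ι) (hp : ∀ a ∈ T, w a ≠ 0 → (X a).card ≤ p)
    (h : ∀ Z : Finset ι, ∑ i ∈ Z, k i ≤ s →
      ∑ a ∈ T.filter (fun a => ¬ Disjoint (X a) Z), w a ≤ 1) :
    ∑ a ∈ T, w a * ((X a).card : ℝ) ≤ 2 * p := by
  have hs : (0 : ℝ) < s + 1 := by positivity
  refine lemmaK_real p (fun i => (k i : ℝ) / (s + 1)) (fun i => div_pos (by exact_mod_cast hk i) hs)
    (fun i => ?_) ?_ T w hw X hp (fun Z hZ => h Z ?_)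
  · rw [div_lt_one hs]
    have : (k i : ℝ) ≤ s := by exact_mod_cast hks i
    linarith
  · rw [← Finset.sum_div, div_le_iff₀ hs]
    exact_mod_cast hK
  · rw [← Finset.sum_div, div_lt_one hs] at hZ
    have : ((∑ i ∈ Z, k i : ℕ) : ℝ) < ((s + 1 : ℕ) : ℝ) := by push_cast; exact hZ
    have := Nat.cast_lt.1 this
    omega

end Pool.Agent.Helper64.LK
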